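import Mathlib
import Pool.Agent.H825R3.Tsi.Defs
import Pool.Agent.H825R3.Tsi.Exist

/-!
# The separation constant of the unit ball of Tsirelson space is `2`

The vectors `e_{2j+4} + e_{2j+5}` (`j = 0, 1, 2, …`; the index `k` stands for the position `k + 1`)
have norm one, and any two of them have distance `2`: their difference is a sum of four unit
vectors with coefficients `±1` at positions beyond `4`, and the four singletons are admissible.
-/

set_option autoImplicit false

namespace Pool.Agent.Results.MP_6d986f_an.SeparationTwo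

open Pool.Agent.H825R3.Tsi

/-- The numbers `l > 0` such that the closed unit ball of `X` contains an infinite
`l`-separated set. -/
def Separations (X : Type) [NormedAddCommGroup X] : Set ℝ :=
  {l : ℝ | 0 < l ∧ ∃ S : Set X, S.Infinite ∧ S ⊆ Metric.closedBall 0 1 ∧
    ∀ x ∈ S, ∀ y ∈ S, x ≠ y → l ≤ dist x y}

/-- The constant `P(X)`. -/
noncomputable def P (X : Type) [NormedAddCommGroup X] : ℝ := sSup (Separations X)

variable {T : Type} [NormedAddCommGroup T] [NormedSpace ℝ T] {e : ℕ → T}

lemma comb_single (k : ℕ) (a : ℝ) : comb e (Finsupp.single k a) = a • e k := by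
  rw [comb_eq, Finsupp.linearCombination_single]

lemma norm_comb_restr_le (E : Finset ℕ) (x : ℕ →₀ ℝ) :
    ‖comb e (restr E x)‖ ≤ ∑ k ∈ x.support, if k ∈ E then |x k| * ‖e k‖ else 0 := by
  classical
  have h1 : comb e (restr E x) = ∑ k ∈ x.support, if k ∈ E then x k • e k else 0 := by
    unfold comb restr
    rw [Finsupp.sum, Finsupp.support_filter, Finset.sum_filter]
    refine Finset.sum_congr rfl fun k _ => ?_
    split_ifs with h
    · rw [Finsupp.filter_apply_pos _ _ h]
    · rfl
  rw [h1]
  refine (norm_sum_le _ _).trans (Finset.sum_le_sum fun k _ => ?_)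
  split_ifs
  · rw [norm_smul, Real.norm_eq_abs]
  · simp

lemma adm_sum_le {n : ℕ} {E : Fin n → Finset ℕ} (hE : Admissible n E) (x : ℕ →₀ ℝ) :
    ∑ i, ‖comb e (restr (E i) x)‖ ≤ ∑ k ∈ x.support, |x k| * ‖e k‖ := by
  classical
  refine (Finset.sum_le_sum fun i _ => norm_comb_restr_le (e := e) (E i) x).trans ?_
  rw [Finset.sum_comm]
  refine Finset.sum_le_sum fun k _ => ?_
  have hnn : 0 ≤ |x k| * ‖e k‖ := by positivity
  by_cases hk : ∃ i, k ∈ E i
  · obtain ⟨i, hi⟩ := hk
    rw [Finset.sum_eq_single i]
    · rw [if_pos hi]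
    · intro j _ hj
      rw [if_neg]
      intro hkj
      rcases lt_or_gt_of_ne hj with h | h
      · exact absurd (hE.2.2 j i h k hkj k hi) (lt_irrefl _)
      · exact absurd (hE.2.2 i j h k hi k hkj) (lt_irrefl _)
    · intro h
      exact absurd (Finset.mem_univ _) h
  · push Not at hk
    rw [Finset.sum_eq_zero]
    · exact hnn
    · intro i _
      rw [if_neg (hk i)]

lemma norm_e (h : IsTsirelson T e) (k : ℕ) : ‖e k‖ = 1 := by
  have hc : comb e (Finsupp.single k (1 : ℝ)) = e k := by rw [comb_single, one_smul]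
  have hL := h.norm_eq (Finsupp.single k 1)
  rw [hc] at hL
  apply le_antisymm
  · have hub : ‖e k‖ ≤ max 1 (‖e k‖ / 2) := by
      apply hL.2
      rintro r (⟨j, rfl⟩ | ⟨n, E, -, hE, rfl⟩)
      · refine le_trans ?_ (le_max_left _ _)
        rw [Finsupp.single_apply]
        split_ifs <;> simp
      · refine le_trans ?_ (le_max_right _ _)
        have h1 := adm_sum_le (e := e) hE (Finsupp.single k (1 : ℝ))
        have h2 : ∑ j ∈ (Finsupp.single k (1 : ℝ)).support,
            |(Finsupp.single k (1 : ℝ)) j| * ‖e j‖ = ‖e k‖ := by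
          rw [Finsupp.support_single_ne_zero _ one_ne_zero, Finset.sum_singleton]
          simp
        rw [h2] at h1
        linarith
    rcases le_max_iff.1 hub with h1 | h1
    · exact h1
    · have := norm_nonneg (e k)
      linarith
  · have h1 := hL.1 (Or.inl ⟨k, rfl⟩)
    simpa using h1

/-- the vector `e_{2j+4} + e_{2j+5}` -/
noncomputable def pt (e : ℕ → T) (j : ℕ) : T := e (2 * j + 4) + e (2 * j + 5)

lemma norm_pt (h : IsTsirelson T e) (j : ℕ) : ‖pt e j‖ ≤ 1 := by
  set a := 2 * j + 4 with ha
  set b := 2 * j + 5 with hb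
  have hab : a ≠ b := by omega
  set x : ℕ →₀ ℝ := Finsupp.single a 1 + Finsupp.single b 1 with hx
  have hc : comb e x = pt e j := by
    rw [hx, comb_eq, map_add, ← comb_eq, ← comb_eq, comb_single, comb_single, one_smul, one_smul]
    rfl
  have hxa : x a = 1 := by
    rw [hx, Finsupp.add_apply, Finsupp.single_eq_same, Finsupp.single_eq_of_ne hab, add_zero]
  have hxb : x b = 1 := by
    rw [hx, Finsupp.add_apply, Finsupp.single_eq_same, Finsupp.single_eq_of_ne hab.symm, zero_add]
  have hx0 : ∀ k, k ≠ a → k ≠ b → x k = 0 := by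
    intro k hka hkb
    rw [hx, Finsupp.add_apply, Finsupp.single_eq_of_ne hka, Finsupp.single_eq_of_ne hkb, add_zero]
  have hL := h.norm_eq x
  rw [hc] at hL
  apply hL.2
  rintro r (⟨k, rfl⟩ | ⟨n, E, -, hE, rfl⟩)
  · by_cases hka : k = a
    · rw [hka, hxa]; simp
    · by_cases hkb : k = b
      · rw [hkb, hxb]; simp
      · rw [hx0 k hka hkb]; simp
  · have h1 := adm_sum_le (e := e) hE x
    have h2 : ∑ k ∈ x.support, |x k| * ‖e k‖ ≤ ∑ k ∈ ({a, b} : Finset ℕ), |x k| * ‖e k‖ := by
      refine Finset.sum_le_sum_of_subset_of_nonneg ?_ (fun _ _ _ => by positivity)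
      intro k hk
      by_contra hk'
      simp only [Finset.mem_insert, Finset.mem_singleton, not_or] at hk'
      exact (Finsupp.mem_support_iff.1 hk) (hx0 k hk'.1 hk'.2)
    rw [Finset.sum_pair hab, hxa, hxb, norm_e h, norm_e h] at h2
    norm_num at h2
    linarith

lemma dist_pt (h : IsTsirelson T e) {i j : ℕ} (hij : i < j) : 2 ≤ ‖pt e i - pt e j‖ := by
  classical
  set x : ℕ →₀ ℝ := Finsupp.single (2 * i + 4) 1 + Finsupp.single (2 * i + 5) 1
    - (Finsupp.single (2 * j + 4) 1 + Finsupp.single (2 * j + 5) 1) with hx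
  have hc : comb e x = pt e i - pt e j := by
    rw [hx, comb_eq, map_sub, map_add, map_add]
    simp only [← comb_eq, comb_single, one_smul]
    rfl
  let p : Fin 4 → ℕ := ![2 * i + 4, 2 * i + 5, 2 * j + 4, 2 * j + 5]
  have hval : ∀ m, |x (p m)| = 1 := by
    intro m
    have hne : ∀ u v : ℕ, u ≠ v → (Finsupp.single u (1 : ℝ)) v = 0 := fun u v huv =>
      Finsupp.single_eq_of_ne huv.symm
    fin_cases m
    · show |x (2 * i + 4)| = 1
      rw [hx, Finsupp.sub_apply, Finsupp.add_apply, Finsupp.add_apply, Finsupp.single_eq_same,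
        hne (2 * i + 5) _ (by omega), hne (2 * j + 4) _ (by omega), hne (2 * j + 5) _ (by omega)]
      norm_num
    · show |x (2 * i + 5)| = 1
      rw [hx, Finsupp.sub_apply, Finsupp.add_apply, Finsupp.add_apply, Finsupp.single_eq_same,
        hne (2 * i + 4) _ (by omega), hne (2 * j + 4) _ (by omega), hne (2 * j + 5) _ (by omega)]
      norm_num
    · show |x (2 * j + 4)| = 1
      rw [hx, Finsupp.sub_apply, Finsupp.add_apply, Finsupp.add_apply, Finsupp.single_eq_same,
        hne (2 * i + 4) _ (by omega), hne (2 * i + 5) _ (by omega), hne (2 * j + 5) _ (by omega)]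
      norm_num
    · show |x (2 * j + 5)| = 1
      rw [hx, Finsupp.sub_apply, Finsupp.add_apply, Finsupp.add_apply, Finsupp.single_eq_same,
        hne (2 * i + 4) _ (by omega), hne (2 * i + 5) _ (by omega), hne (2 * j + 4) _ (by omega)]
      norm_num
  have hmono : ∀ m m' : Fin 4, m < m' → p m < p m' := by
    intro m m' hmm
    fin_cases m <;> fin_cases m' <;> simp [p] at hmm ⊢ <;> omega
  have hadm : Admissible 4 (fun m => {p m}) := by
    refine ⟨fun m => Finset.singleton_nonempty _, ?_, ?_⟩
    · intro m k hk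
      rw [Finset.mem_singleton.1 hk]
      fin_cases m <;> simp [p] <;> omega
    · intro m m' hmm a ha b hb
      rw [Finset.mem_singleton.1 ha, Finset.mem_singleton.1 hb]
      exact hmono m m' hmm
  have h1 := h.adm_le x (by norm_num : 1 ≤ 4) hadm
  have h2 : ∀ m : Fin 4, ‖comb e (restr {p m} x)‖ = 1 := by
    intro m
    have h3 : restr {p m} x = Finsupp.single (p m) (x (p m)) := by
      ext k
      unfold restr
      by_cases hk : k = p m
      · subst hk
        rw [Finsupp.filter_apply_pos _ _ (Finset.mem_singleton_self _), Finsupp.single_eq_same]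
      · rw [Finsupp.filter_apply_neg _ _ (fun h' => hk (Finset.mem_singleton.1 h')),
          Finsupp.single_eq_of_ne hk]
    rw [h3, comb_single, norm_smul, norm_e h, mul_one, Real.norm_eq_abs, hval]
  rw [Finset.sum_congr rfl (fun m _ => h2 m)] at h1
  simp only [Finset.sum_const, Finset.card_univ, Fintype.card_fin] at h1
  rw [hc] at h1
  norm_num at h1
  linarith

lemma two_mem (h : IsTsirelson T e) : (2 : ℝ) ∈ Separations T := by
  have hd : ∀ i j, i ≠ j → 2 ≤ ‖pt e i - pt e j‖ := by
    intro i j hij
    rcases lt_or_gt_of_ne hij with h1 | h1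
    · exact dist_pt h h1
    · rw [norm_sub_rev]
      exact dist_pt h h1
  have hinj : Function.Injective (pt e) := by
    intro i j hij
    by_contra hne
    have := hd i j hne
    rw [hij, sub_self, norm_zero] at this
    norm_num at this
  refine ⟨two_pos, Set.range (pt e), Set.infinite_range_of_injective hinj, ?_, ?_⟩
  · rintro _ ⟨j, rfl⟩
    rw [mem_closedBall_zero_iff]
    exact norm_pt h j
  · rintro _ ⟨i, rfl⟩ _ ⟨j, rfl⟩ hne
    rw [dist_eq_norm]
    exact hd i j fun hij => hne (by rw [hij])

lemma le_two {X : Type} [NormedAddCommGroup X] {l : ℝ} (hl : l ∈ Separations X) : l ≤ 2 := by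
  obtain ⟨-, S, hS, hball, hsep⟩ := hl
  obtain ⟨x, hx, y, hy, hxy⟩ := hS.nontrivial
  have h1 := hsep x hx y hy hxy
  have h2 := mem_closedBall_zero_iff.1 (hball hx)
  have h3 := mem_closedBall_zero_iff.1 (hball hy)
  have h4 : dist x y ≤ ‖x‖ + ‖y‖ := by
    rw [dist_eq_norm]
    exact norm_sub_le _ _
  linarith

/-- **The separation constant of the unit ball of Tsirelson space is `2`, and it is attained.**

Tsirelson space in the Figiel-Johnson form exists (a Banach space `T` with a sequence `e` whose
span is dense and on whose finite linear combinations the norm satisfies the implicit equation),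
and for every such realisation the closed unit ball of `T` contains an infinite `2`-separated set,
so that `P(T) = 2`. -/
theorem result :
    (∃ (T : Type) (_ : NormedAddCommGroup T) (_ : NormedSpace ℝ T) (e : ℕ → T),
      IsTsirelson T e) ∧
    ∀ (T : Type) [NormedAddCommGroup T] [NormedSpace ℝ T] (e : ℕ → T), IsTsirelson T e →
      IsGreatest (Separations T) 2 ∧ P T = 2 := by
  refine ⟨⟨TT, inferInstance, inferInstance, ee, isTsirelson_TT⟩, ?_⟩
  intro T _ _ e h
  have hg : IsGreatest (Separations T) 2 := ⟨two_mem h, fun l hl => le_two hl⟩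
  exact ⟨hg, hg.csSup_eq⟩

end Pool.Agent.Results.MP_6d986f_an.SeparationTwo
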